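import Pool.Agent.W7.FH.Qm

/-!
Fermat's equation over quadratic fields: nontrivial solutions of exponent `n` (prime to `6`) have
height at least `2 ^ (n - 2)`, uniformly in the field.

Let `K` be any quadratic field and `x ^ n + y ^ n = z ^ n` with nonzero `x, y, z` in `K`, `n ≥ 5`
prime to `6`. Either the solution is trivial, `(x, y, z) = (a, a ζ ^ 2, a ζ)` with a primitive sixth
root of unity `ζ` in `K`, or `H_K(x : y : z) ≥ 2 ^ (n - 2)`. If `n ≥ 7` is prime and all prime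
ideals of `K` have norm at least `q`, `q ≤ 4`, then even `H_K(x : y : z) ≥ q ^ n / 4`
(`q = 4` if `2` and `3` are inert).
-/

set_option autoImplicit false

namespace Pool.Agent.Results.MP_50a406_nt.ExponentialHeight

open NumberField

theorem result (K : Type) [Field K] [NumberField K] (hK : Module.finrank ℚ K = 2)
    (n : ℕ) (h5 : 5 ≤ n) (h6 : Nat.Coprime n 6) (x y z : K) (h : x ^ n + y ^ n = z ^ n)
    (hx : x ≠ 0) (hy : y ≠ 0) (hz : z ≠ 0) :
    (∃ ζ : K, IsPrimitiveRoot ζ 6 ∧ y = x * ζ ^ 2 ∧ z = x * ζ) ∨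
    ((2 : ℝ) ^ (n - 2) ≤ Height.mulHeight ![x, y, z] ∧
      (n.Prime → 7 ≤ n → ∀ q : ℕ, q ≤ 4 →
        (∀ P : Ideal (𝓞 K), P.IsPrime → P ≠ ⊥ → q ≤ Ideal.absNorm P) →
        (q : ℝ) ^ n ≤ 4 * Height.mulHeight ![x, y, z])) :=
  (Pool.Agent.W7.FH.quad_final hK n h5 h6 x y z h hx hy hz).imp_right fun h1 => h1.2

end Pool.Agent.Results.MP_50a406_nt.ExponentialHeight
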